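import Mathlib

/-!
# Pencils `t (W + D) + (W - D)ᵀ` with `W + Wᵀ` having at most one negative eigenvalue
-/

set_option autoImplicit false

namespace Pool.Agent.W5h66.CX

open Matrix Polynomial Filter Topology
open scoped ComplexOrder

noncomputable section

variable {ι : Type} [Fintype ι] [DecidableEq ι]

/-- two roots of the characteristic polynomial give an invariant plane -/
theorem two_roots (T : Matrix ι ι ℂ) (p : ℂ → Prop) [DecidablePred p]
    (h : 2 ≤ (T.charpoly.roots.filter p).card) :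
    ∃ (μ₁ μ₂ ν : ℂ) (x₁ x₂ : ι → ℂ), p μ₁ ∧ p μ₂ ∧ (μ₁ ≠ μ₂ → ν = 0) ∧
      (∀ s t : ℂ, s • x₁ + t • x₂ = 0 → s = 0 ∧ t = 0) ∧
      T *ᵥ x₁ = μ₁ • x₁ ∧ T *ᵥ x₂ = μ₂ • x₂ + ν • x₁ := by
  classical
  set f : Module.End ℂ (ι → ℂ) := Matrix.toLin' T with hf
  have hfc : f.charpoly = T.charpoly := by rw [hf]; exact Matrix.charpoly_toLin' T
  have hfx : ∀ x, f x = T *ᵥ x := fun x => by rw [hf]; exact Matrix.toLin'_apply T x
  obtain ⟨μ₁, h1⟩ : ∃ a, a ∈ T.charpoly.roots.filter p :=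
    Multiset.card_pos_iff_exists_mem.mp (by omega)
  obtain ⟨s, hs⟩ := Multiset.exists_cons_of_mem h1
  obtain ⟨μ₂, h2⟩ : ∃ a, a ∈ s := Multiset.card_pos_iff_exists_mem.mp (by
    rw [hs, Multiset.card_cons] at h
    omega)
  obtain ⟨u, hu⟩ := Multiset.exists_cons_of_mem h2
  have h2' : μ₂ ∈ T.charpoly.roots.filter p := by rw [hs]; exact Multiset.mem_cons_of_mem h2
  have hev : ∀ μ, μ ∈ T.charpoly.roots.filter p → ∃ x : ι → ℂ, x ≠ 0 ∧ f x = μ • x := by
    intro μ hμ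
    have h3 : f.charpoly.IsRoot μ := by
      rw [hfc]
      exact (mem_roots'.mp (Multiset.mem_of_mem_filter hμ)).2
    have h4 := (Module.End.hasEigenvalue_iff_isRoot_charpoly f μ).mpr h3
    obtain ⟨x, hx⟩ := h4.exists_hasEigenvector
    exact ⟨x, hx.2, hx.apply_eq_smul⟩
  obtain ⟨x₁, hx₁, hTx₁⟩ := hev μ₁ h1
  by_cases hμ : μ₁ = μ₂
  · have hcount : 2 ≤ T.charpoly.rootMultiplicity μ₁ := by
      have h3 : 2 ≤ (T.charpoly.roots.filter p).count μ₁ := by
        rw [hs, hu, ← hμ, Multiset.count_cons_self, Multiset.count_cons_self]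
        omega
      rw [← count_roots]
      exact h3.trans (Multiset.count_le_of_le _ (Multiset.filter_le _ _))
    have hfr : 2 ≤ Module.finrank ℂ (f.maxGenEigenspace μ₁) := by
      rw [LinearMap.finrank_maxGenEigenspace_eq, hfc]
      exact hcount
    obtain ⟨y, hyG, hyS⟩ : ∃ y ∈ f.maxGenEigenspace μ₁, y ∉ Submodule.span ℂ {x₁} := by
      by_contra hcon
      push Not at hcon
      have h3 : f.maxGenEigenspace μ₁ ≤ Submodule.span ℂ {x₁} := hcon
      have h4 := Submodule.finrank_mono h3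
      have h5 := finrank_span_singleton (K := ℂ) hx₁
      omega
    obtain ⟨k, hk⟩ := (Module.End.mem_maxGenEigenspace f μ₁ y).mp hyG
    set g : Module.End ℂ (ι → ℂ) := f - μ₁ • (1 : Module.End ℂ (ι → ℂ)) with hg
    have hex : ∃ m, (g ^ m) y ∈ Submodule.span ℂ {x₁} := ⟨k, by
      rw [hg, hk]; exact Submodule.zero_mem _⟩
    set m := Nat.find hex with hm
    have hm1 : (g ^ m) y ∈ Submodule.span ℂ {x₁} := Nat.find_spec hex
    have hm0 : m ≠ 0 := by
      intro h0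
      rw [h0] at hm1
      exact hyS (by simpa using hm1)
    obtain ⟨j, hj⟩ := Nat.exists_eq_succ_of_ne_zero hm0
    have hj1 : (g ^ j) y ∉ Submodule.span ℂ {x₁} := Nat.find_min hex (by omega)
    set x₂ := (g ^ j) y with hx₂
    have hgx : g x₂ ∈ Submodule.span ℂ {x₁} := by
      have h3 : g x₂ = (g ^ m) y := by
        rw [hj, Nat.succ_eq_add_one, pow_succ', Module.End.mul_apply]
      rw [h3]
      exact hm1
    obtain ⟨ν, hν⟩ := Submodule.mem_span_singleton.mp hgx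
    refine ⟨μ₁, μ₂, ν, x₁, x₂, (Multiset.mem_filter.mp h1).2, (Multiset.mem_filter.mp h2').2,
      fun h => absurd hμ h, ?_, ?_, ?_⟩
    · intro s t hst
      have ht : t = 0 := by
        by_contra ht
        apply hj1
        have h3 : x₂ = (-(t⁻¹ * s)) • x₁ := by
          have h4 : t • x₂ = -(s • x₁) := by
            rw [eq_neg_iff_add_eq_zero, add_comm]; exact hst
          calc x₂ = t⁻¹ • (t • x₂) := by rw [smul_smul, inv_mul_cancel₀ ht, one_smul]
            _ = (-(t⁻¹ * s)) • x₁ := by rw [h4, smul_neg, smul_smul, neg_smul]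
        rw [h3]
        exact Submodule.smul_mem _ _ (Submodule.mem_span_singleton_self x₁)
      rw [ht, zero_smul, add_zero] at hst
      exact ⟨(smul_eq_zero.mp hst).resolve_right hx₁, ht⟩
    · rw [← hfx]; exact hTx₁
    · rw [← hfx, ← hμ]
      have h3 : g x₂ = f x₂ - μ₁ • x₂ := by
        rw [hg, LinearMap.sub_apply, LinearMap.smul_apply, Module.End.one_apply]
      rw [h3] at hν
      rw [hν]
      abel
  · obtain ⟨x₂, hx₂, hTx₂⟩ := hev μ₂ h2'
    refine ⟨μ₁, μ₂, 0, x₁, x₂, (Multiset.mem_filter.mp h1).2, (Multiset.mem_filter.mp h2').2,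
      fun _ => rfl, ?_, ?_, ?_⟩
    · intro s t hst
      have h3 : s • (μ₁ • x₁) + t • (μ₂ • x₂) = 0 := by
        have h4 := congrArg f hst
        rw [map_add, map_smul, map_smul, hTx₁, hTx₂, map_zero] at h4
        exact h4
      have h4 : (t * (μ₂ - μ₁)) • x₂ = 0 := by
        have h5 : s • (μ₁ • x₁) + t • (μ₂ • x₂) - μ₁ • (s • x₁ + t • x₂) = 0 := by
          rw [h3, hst, smul_zero, sub_zero]
        rw [← h5]
        module
      have ht : t = 0 := by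
        rcases smul_eq_zero.mp h4 with h5 | h5
        · rcases mul_eq_zero.mp h5 with h6 | h6
          · exact h6
          · exact absurd (sub_eq_zero.mp h6).symm hμ
        · exact absurd h5 hx₂
      rw [ht, zero_smul, add_zero] at hst
      exact ⟨(smul_eq_zero.mp hst).resolve_right hx₁, ht⟩
    · rw [← hfx]; exact hTx₁
    · rw [← hfx, zero_smul, add_zero]; exact hTx₂

omit [DecidableEq ι] in
/-- a backward orbit in the plane -/
theorem backward (T : Matrix ι ι ℂ) (μ₁ μ₂ ν : ℂ) (x₁ x₂ : ι → ℂ) (h1 : 1 < ‖μ₁‖)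
    (h2 : 1 < ‖μ₂‖) (hν : μ₁ ≠ μ₂ → ν = 0) (hT1 : T *ᵥ x₁ = μ₁ • x₁)
    (hT2 : T *ᵥ x₂ = μ₂ • x₂ + ν • x₁) (a b : ℂ) : ∃ c d : ℕ → ℂ, Tendsto c atTop (𝓝 0) ∧
      Tendsto d atTop (𝓝 0) ∧ c 0 = a ∧ d 0 = b ∧
      ∀ k, T *ᵥ (c (k + 1) • x₁ + d (k + 1) • x₂) = c k • x₁ + d k • x₂ := by
  have hz : ∀ μ : ℂ, 1 < ‖μ‖ → Tendsto (fun k : ℕ => (μ⁻¹) ^ k) atTop (𝓝 0) := by
    intro μ hμ
    refine tendsto_pow_atTop_nhds_zero_of_norm_lt_one ?_
    rw [norm_inv]
    exact inv_lt_one_of_one_lt₀ hμ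
  have hn : ∀ μ : ℂ, 1 < ‖μ‖ → μ ≠ 0 := by
    rintro μ hμ rfl
    rw [norm_zero] at hμ
    linarith
  by_cases hμ : μ₁ = μ₂
  · subst hμ
    have h0 := hn _ h1
    have hk : Tendsto (fun k : ℕ => (k : ℂ) * (μ₁⁻¹) ^ k) atTop (𝓝 0) := by
      have h3 : Tendsto (fun k : ℕ => (k : ℝ) * (‖μ₁‖⁻¹) ^ k) atTop (𝓝 0) :=
        tendsto_self_mul_const_pow_of_lt_one (by positivity) (inv_lt_one_of_one_lt₀ h1)
      refine tendsto_zero_iff_norm_tendsto_zero.mpr (h3.congr fun k => ?_)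
      rw [norm_mul, norm_pow, norm_inv, Complex.norm_natCast]
    refine ⟨fun k => a * (μ₁⁻¹) ^ k - b * ν * μ₁⁻¹ * ((k : ℂ) * (μ₁⁻¹) ^ k),
      fun k => b * (μ₁⁻¹) ^ k, ?_, ?_, ?_, ?_, ?_⟩
    · have := ((hz _ h1).const_mul a).sub (hk.const_mul (b * ν * μ₁⁻¹))
      simpa using this
    · have := (hz _ h1).const_mul b
      simpa using this
    · simp
    · simp
    · intro k
      beta_reduce
      rw [mulVec_add, mulVec_smul, mulVec_smul, hT1, hT2]
      have e1 : (μ₁⁻¹) ^ (k + 1) * μ₁ = (μ₁⁻¹) ^ k := by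
        rw [pow_succ, mul_assoc, inv_mul_cancel₀ h0, mul_one]
      have e2 : (μ₁⁻¹) ^ (k + 1) = (μ₁⁻¹) ^ k * μ₁⁻¹ := pow_succ _ _
      rw [smul_add, smul_smul, smul_smul, smul_smul]
      have e3 : (a * (μ₁⁻¹) ^ (k + 1) - b * ν * μ₁⁻¹ * (((k + 1 : ℕ) : ℂ) * (μ₁⁻¹) ^ (k + 1))) * μ₁
          + b * (μ₁⁻¹) ^ (k + 1) * ν = a * (μ₁⁻¹) ^ k - b * ν * μ₁⁻¹ * ((k : ℂ) * (μ₁⁻¹) ^ k) := by
        push_cast
        linear_combination (a - b * ν * μ₁⁻¹ * (k + 1)) * e1 + b * ν * e2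
      have e4 : b * (μ₁⁻¹) ^ (k + 1) * μ₁ = b * (μ₁⁻¹) ^ k := by
        linear_combination b * e1
      rw [e4, ← e3]
      module
  · have hν0 := hν hμ
    subst hν0
    have h01 := hn _ h1
    have h02 := hn _ h2
    refine ⟨fun k => a * (μ₁⁻¹) ^ k, fun k => b * (μ₂⁻¹) ^ k, ?_, ?_, by simp, by simp, ?_⟩
    · have := (hz _ h1).const_mul a
      simpa using this
    · have := (hz _ h2).const_mul b
      simpa using this
    · intro k
      beta_reduce
      rw [mulVec_add, mulVec_smul, mulVec_smul, hT1, hT2, zero_smul, add_zero, smul_smul,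
        smul_smul]
      congr 2
      · rw [mul_assoc, pow_succ, mul_assoc ((μ₁⁻¹) ^ k), inv_mul_cancel₀ h01, mul_one]
      · rw [mul_assoc, pow_succ, mul_assoc ((μ₂⁻¹) ^ k), inv_mul_cancel₀ h02, mul_one]

/-- a contraction of a form with at most one negative square has at most one eigenvalue outside
the unit circle, with multiplicity -/
theorem card_outside (T B : Matrix ι ι ℂ) (v : ι → ℂ) (hB : B.IsHermitian)
    (hc : ∀ x : ι → ℂ, (star (T *ᵥ x) ⬝ᵥ B *ᵥ (T *ᵥ x)).re ≤ (star x ⬝ᵥ B *ᵥ x).re)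
    (hv : ∀ x : ι → ℂ, 0 ≤ (star x ⬝ᵥ B *ᵥ x).re + ‖v ⬝ᵥ x‖ ^ 2)
    (hker : ∀ x : ι → ℂ, B *ᵥ x = 0 → T *ᵥ x = x) :
    (T.charpoly.roots.filter fun z => 1 < ‖z‖).card ≤ 1 := by
  classical
  by_contra hcon
  push Not at hcon
  obtain ⟨μ₁, μ₂, ν, x₁, x₂, h1, h2, hν, hind, hT1, hT2⟩ := two_roots T (fun z => 1 < ‖z‖) hcon
  obtain ⟨a, b, hab, hvx⟩ : ∃ a b : ℂ, (a ≠ 0 ∨ b ≠ 0) ∧ v ⬝ᵥ (a • x₁ + b • x₂) = 0 := by
    by_cases h0 : v ⬝ᵥ x₁ = 0
    · refine ⟨1, 0, Or.inl one_ne_zero, ?_⟩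
      rw [one_smul, zero_smul, add_zero, h0]
    · refine ⟨v ⬝ᵥ x₂, -(v ⬝ᵥ x₁), Or.inr (neg_ne_zero.mpr h0), ?_⟩
      rw [dotProduct_add, dotProduct_smul, dotProduct_smul, smul_eq_mul, smul_eq_mul]
      ring
  obtain ⟨c, d, hc0, hd0, hca, hdb, hstep⟩ := backward T μ₁ μ₂ ν x₁ x₂ h1 h2 hν hT1 hT2 a b
  set Q : (ι → ℂ) → ℝ := fun x => (star x ⬝ᵥ B *ᵥ x).re with hQ
  have hmono : ∀ k, Q (c 0 • x₁ + d 0 • x₂) ≤ Q (c k • x₁ + d k • x₂) := by
    intro k
    induction k with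
    | zero => exact le_rfl
    | succ k ih =>
      refine ih.trans ?_
      have h3 := hc (c (k + 1) • x₁ + d (k + 1) • x₂)
      rw [hstep k] at h3
      exact h3
  have hcont : Continuous fun p : ℂ × ℂ => Q (p.1 • x₁ + p.2 • x₂) := by
    rw [hQ]
    refine Complex.continuous_re.comp ?_
    unfold dotProduct
    refine continuous_finsetSum _ fun i _ => ?_
    refine Continuous.mul ?_ ?_
    · simp only [Pi.star_apply, Pi.add_apply, Pi.smul_apply, smul_eq_mul]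
      fun_prop
    · simp only [mulVec, dotProduct, Pi.add_apply, Pi.smul_apply, smul_eq_mul]
      fun_prop
  have hlim : Tendsto (fun k => Q (c k • x₁ + d k • x₂)) atTop (𝓝 0) := by
    have h3 := (hcont.tendsto (0, 0)).comp (hc0.prodMk_nhds hd0)
    have h4 : Q ((0 : ℂ) • x₁ + (0 : ℂ) • x₂) = 0 := by
      rw [hQ]
      simp
    simp only [h4] at h3
    exact h3
  have hle : Q (a • x₁ + b • x₂) ≤ 0 := by
    rw [← hca, ← hdb]
    exact ge_of_tendsto' hlim hmono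
  set x := a • x₁ + b • x₂ with hx
  have hge : 0 ≤ Q x := by
    have h3 := hv x
    rw [hvx, norm_zero] at h3
    simpa using h3
  have hQ0 : Q x = 0 := le_antisymm hle hge
  -- the positive semidefinite form
  have hpsd : (B + Matrix.vecMulVec (star v) v).PosSemidef := by
    refine Matrix.PosSemidef.of_dotProduct_mulVec_nonneg ?_ ?_
    · refine hB.add ?_
      ext i j
      simp [Matrix.vecMulVec_apply, mul_comm]
    · intro y
      have h3 : star y ⬝ᵥ (B + Matrix.vecMulVec (star v) v) *ᵥ y =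
          star y ⬝ᵥ B *ᵥ y + ((‖v ⬝ᵥ y‖ ^ 2 : ℝ) : ℂ) := by
        rw [add_mulVec, dotProduct_add, Matrix.vecMulVec_mulVec]
        congr 1
        have h4 : star y ⬝ᵥ (MulOpposite.op (v ⬝ᵥ y) • star v) = (star (v ⬝ᵥ y)) * (v ⬝ᵥ y) := by
          rw [dotProduct_smul, star_dotProduct_star, op_smul_eq_mul]
        rw [h4, Complex.star_def, ← Complex.normSq_eq_conj_mul_self, Complex.normSq_eq_norm_sq]
      rw [h3]
      have h5 : (star y ⬝ᵥ B *ᵥ y).im = 0 := hB.im_star_dotProduct_mulVec_self y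
      have h6 : star y ⬝ᵥ B *ᵥ y = (((star y ⬝ᵥ B *ᵥ y).re : ℝ) : ℂ) := by
        apply Complex.ext
        · simp
        · simpa using h5
      rw [h6, ← Complex.ofReal_add]
      exact_mod_cast hv y
  have hBx : B *ᵥ x = 0 := by
    have h3 : (B + Matrix.vecMulVec (star v) v) *ᵥ x = B *ᵥ x := by
      rw [add_mulVec, Matrix.vecMulVec_mulVec, hvx]
      simp
    rw [← h3]
    refine (hpsd.dotProduct_mulVec_zero_iff x).mp ?_
    rw [h3]
    have h5 : (star x ⬝ᵥ B *ᵥ x).im = 0 := hB.im_star_dotProduct_mulVec_self x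
    apply Complex.ext
    · exact hQ0
    · simpa using h5
  have hTx := hker x hBx
  have h3 : (a * (μ₁ - 1) + b * ν) • x₁ + (b * (μ₂ - 1)) • x₂ = 0 := by
    have h4 : T *ᵥ x - x = 0 := sub_eq_zero.mpr hTx
    rw [hx, mulVec_add, mulVec_smul, mulVec_smul, hT1, hT2] at h4
    rw [← h4]
    module
  obtain ⟨h4, h5⟩ := hind _ _ h3
  have hne : ∀ μ : ℂ, 1 < ‖μ‖ → μ - 1 ≠ 0 := by
    intro μ hμ h0
    rw [sub_eq_zero.mp h0, norm_one] at hμ
    exact lt_irrefl _ hμ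
  have hb : b = 0 := (mul_eq_zero.mp h5).resolve_right (hne _ h2)
  rw [hb, zero_mul, add_zero] at h4
  have ha : a = 0 := (mul_eq_zero.mp h4).resolve_right (hne _ h1)
  rcases hab with h | h
  · exact h ha
  · exact h hb

end

end Pool.Agent.W5h66.CX
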