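import Pool.Agent.W5h66.CX.C
import Pool.Agent.W5h66.LX.A

/-!
# Coxeter polynomials of symmetrizable matrices
-/

set_option autoImplicit false

namespace Pool.Agent.W5h66.CX

open Matrix Polynomial Filter Topology MeasureTheory
open Pool.Agent.H261R2.CM (toC ez ev1 m1 mx1 D_norm_ez D_log_m1 D_intervalIntegrable_log D_ae_ne)
open Pool.Agent.Y820.LB (Dom Good)

noncomputable section

variable {n : ℕ}

/-- the upper unitriangular part of a matrix with diagonal entries `2` -/
def up (A : Matrix (Fin n) (Fin n) ℤ) : Matrix (Fin n) (Fin n) ℤ :=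
  Matrix.of fun i j => if i < j then A i j else if i = j then 1 else 0

/-- the lower unitriangular part of a matrix with diagonal entries `2` -/
def lo (A : Matrix (Fin n) (Fin n) ℤ) : Matrix (Fin n) (Fin n) ℤ :=
  Matrix.of fun i j => if j < i then A i j else if i = j then 1 else 0

/-- the pencil with the diagonal perturbation `e` -/
def pol (A : Matrix (Fin n) (Fin n) ℤ) (e : Fin n → ℤ) : ℤ[X] :=
  pnc (up A + diagonal e) (lo A - diagonal e)

/-- symmetrizable matrices with at most one negative eigenvalue -/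
structure Dat (A : Matrix (Fin n) (Fin n) ℤ) (d : Fin n → ℝ) : Prop where
  diag : ∀ i, A i i = 2
  pos : ∀ i, 0 < d i
  symm : ∀ i j, d i * A i j = d j * A j i
  lor : ∃ v : Fin n → ℝ, ∀ x : Fin n → ℝ,
    0 ≤ ∑ i, ∑ j, d i * A i j * x i * x j + (∑ i, v i * x i) ^ 2

variable {A : Matrix (Fin n) (Fin n) ℤ} {d : Fin n → ℝ}

/-- the real Seifert matrix -/
def Wm (A : Matrix (Fin n) (Fin n) ℤ) (d : Fin n → ℝ) : Matrix (Fin n) (Fin n) ℝ :=
  diagonal d * (up A).map (Int.castRingHom ℝ)

theorem Dat.tr (h : Dat A d) : (Wm A d)ᵀ = diagonal d * (lo A).map (Int.castRingHom ℝ) := by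
  ext i j
  simp only [Wm, Matrix.transpose_apply, Matrix.diagonal_mul, Matrix.map_apply, up, lo,
    Matrix.of_apply]
  rcases lt_trichotomy i j with hij | hij | hij
  · simp [hij.not_gt, hij.ne, hij.ne']
  · subst hij
    simp
  · rw [if_pos hij, if_pos hij]
    simpa using h.symm j i

theorem Dat.lorW (h : Dat A d) : Lor (Wm A d) := by
  obtain ⟨v, hv⟩ := h.lor
  refine ⟨fun i => v i / Real.sqrt 2, fun x => ?_⟩
  have h1 : (Real.sqrt 2) ^ 2 = 2 := Real.sq_sqrt (by norm_num)
  have h2 : ((fun i => v i / Real.sqrt 2) ⬝ᵥ x) ^ 2 = (∑ i, v i * x i) ^ 2 / 2 := by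
    have h3 : (fun i => v i / Real.sqrt 2) ⬝ᵥ x = (∑ i, v i * x i) / Real.sqrt 2 := by
      simp only [dotProduct, Finset.sum_div]
      exact Finset.sum_congr rfl fun i _ => by ring
    rw [h3, div_pow, h1]
  have h4 : 2 * (x ⬝ᵥ Wm A d *ᵥ x) = ∑ i, ∑ j, d i * A i j * x i * x j := by
    have h5 : 2 * (x ⬝ᵥ Wm A d *ᵥ x) = x ⬝ᵥ (Wm A d + (Wm A d)ᵀ) *ᵥ x := by
      rw [add_mulVec, dotProduct_add, mulVec_transpose, dotProduct_comm x (x ᵥ* Wm A d),
        ← dotProduct_mulVec]
      ring
    rw [h5, h.tr]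
    simp only [dotProduct, mulVec, Finset.mul_sum]
    refine Finset.sum_congr rfl fun i _ => Finset.sum_congr rfl fun j _ => ?_
    simp only [Matrix.add_apply, Wm, Matrix.diagonal_mul, Matrix.map_apply, up, lo,
      Matrix.of_apply]
    rcases lt_trichotomy i j with hij | hij | hij
    · simp [hij, hij.not_gt, hij.ne]
      ring
    · subst hij
      simp [h.diag i]
      ring
    · simp [hij, hij.not_gt, hij.ne']
      ring
  rw [h2]
  linarith [hv x]

theorem det_up (A : Matrix (Fin n) (Fin n) ℤ) (e : Fin n → ℤ) :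
    (up A + diagonal e).det = ∏ i, (1 + e i) := by
  rw [Matrix.det_of_isUpperTriangular]
  · refine Finset.prod_congr rfl fun i _ => ?_
    simp [up]
  · intro i j hij
    have hij' : j < i := hij
    simp [up, hij'.not_gt, hij'.ne', Matrix.diagonal_apply_ne _ hij'.ne']

theorem det_up_real (A : Matrix (Fin n) (Fin n) ℤ) (e : Fin n → ℝ) :
    ((up A).map (Int.castRingHom ℝ) + diagonal e).det = ∏ i, (1 + e i) := by
  rw [Matrix.det_of_isUpperTriangular]
  · refine Finset.prod_congr rfl fun i _ => ?_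
    simp [up]
  · intro i j hij
    have hij' : j < i := hij
    simp [up, hij'.not_gt, hij'.ne', Matrix.diagonal_apply_ne _ hij'.ne']

theorem W_add (A : Matrix (Fin n) (Fin n) ℤ) (d e : Fin n → ℝ) :
    Wm A d + diagonal (fun i => e i * d i) =
      diagonal d * ((up A).map (Int.castRingHom ℝ) + diagonal e) := by
  unfold Wm
  rw [Matrix.mul_add, Matrix.diagonal_mul_diagonal]
  congr 2
  ext i
  ring

theorem Dat.W_sub (h : Dat A d) (e : Fin n → ℝ) :
    (Wm A d)ᵀ - diagonal (fun i => e i * d i) =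
      diagonal d * ((lo A).map (Int.castRingHom ℝ) - diagonal e) := by
  rw [h.tr, Matrix.mul_sub, Matrix.diagonal_mul_diagonal]
  congr 2
  ext i
  ring

theorem pol_real (A : Matrix (Fin n) (Fin n) ℤ) (e : Fin n → ℤ) :
    (pol A e).map (Int.castRingHom ℝ) = pnc ((up A).map (Int.castRingHom ℝ) +
      diagonal fun i => (e i : ℝ)) ((lo A).map (Int.castRingHom ℝ) - diagonal fun i => (e i : ℝ)) := by
  unfold pol
  rw [pnc_map]
  congr 1
  · ext i j
    by_cases hij : i = j
    · subst hij
      simp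
    · simp [Matrix.diagonal_apply_ne _ hij]
  · ext i j
    by_cases hij : i = j
    · subst hij
      simp
    · simp [Matrix.diagonal_apply_ne _ hij]

theorem Dat.pnc_eq (h : Dat A d) (e : Fin n → ℝ) :
    pnc (Wm A d + diagonal fun i => e i * d i) ((Wm A d)ᵀ - diagonal fun i => e i * d i) =
      C (∏ i, d i) * pnc ((up A).map (Int.castRingHom ℝ) + diagonal e)
        ((lo A).map (Int.castRingHom ℝ) - diagonal e) := by
  refine Polynomial.funext fun t => ?_
  rw [eval_mul, eval_C, pnc_eval, pnc_eval, W_add, h.W_sub, ← Matrix.mul_smul, ← Matrix.mul_add,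
    Matrix.det_mul, Matrix.det_diagonal]

theorem Dat.prod_pos (h : Dat A d) : 0 < ∏ i, d i := Finset.prod_pos fun i _ => h.pos i

/-- at most one root outside the unit circle -/
theorem Dat.card (h : Dat A d) (e : Fin n → ℤ) (he : ∀ i, 0 ≤ e i) :
    ((((pol A e).map (Int.castRingHom ℝ)).map Complex.ofRealHom).roots.filter
      fun z => 1 < ‖z‖).card ≤ 1 := by
  have h1 := card_pnc (Wm A d) h.lorW (fun i => (e i : ℝ) * d i)
    (fun i => mul_nonneg (by exact_mod_cast he i) (h.pos i).le) (by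
      rw [W_add, Matrix.det_mul, Matrix.det_diagonal, det_up_real]
      refine mul_ne_zero h.prod_pos.ne' (Finset.prod_pos fun i _ => ?_).ne'
      have : (0 : ℝ) ≤ e i := by exact_mod_cast he i
      linarith)
  rw [h.pnc_eq, ← pol_real, Polynomial.map_mul, Polynomial.map_C, roots_C_mul] at h1
  · exact h1
  · rw [Complex.ofRealHom_eq_coe]
    exact_mod_cast h.prod_pos.ne'

theorem pol_lead (A : Matrix (Fin n) (Fin n) ℤ) (e : Fin n → ℤ) (he : ∀ i, 0 ≤ e i) :
    (pol A e).leadingCoeff = ∏ i, (1 + e i) := by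
  have h0 : (up A + diagonal e).det ≠ 0 := by
    rw [det_up]
    exact (Finset.prod_pos fun i _ => by have := he i; omega).ne'
  unfold pol
  rw [pnc_lead _ _ h0, det_up]

theorem pol_natDegree (A : Matrix (Fin n) (Fin n) ℤ) (e : Fin n → ℤ) (he : ∀ i, 0 ≤ e i) :
    (pol A e).natDegree = n := by
  have h0 : (up A + diagonal e).det ≠ 0 := by
    rw [det_up]
    exact (Finset.prod_pos fun i _ => by have := he i; omega).ne'
  unfold pol
  rw [pnc_natDegree _ _ h0, Fintype.card_fin]

theorem pol_ne (A : Matrix (Fin n) (Fin n) ℤ) (e : Fin n → ℤ) (he : ∀ i, 0 ≤ e i) :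
    pol A e ≠ 0 := by
  rw [← leadingCoeff_ne_zero, pol_lead A e he]
  exact (Finset.prod_pos fun i _ => by have := he i; omega).ne'

/-- the Coxeter polynomial -/
def cox (A : Matrix (Fin n) (Fin n) ℤ) : ℤ[X] := pol A 0

theorem cox_monic (A : Matrix (Fin n) (Fin n) ℤ) : (cox A).Monic := by
  unfold cox Polynomial.Monic
  rw [pol_lead A 0 fun _ => le_rfl]
  simp

theorem toC_eq (p : ℤ[X]) : toC p = (p.map (Int.castRingHom ℝ)).map Complex.ofRealHom := by
  unfold toC
  rw [Polynomial.map_map]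
  congr 1

/-- the measure and the outside root -/
theorem Dat.cases (h : Dat A d) (e : Fin n → ℤ) (he : ∀ i, 0 ≤ e i) :
    ((∀ z : ℂ, 1 < ‖z‖ → (toC (pol A e)).eval z ≠ 0) ∧ m1 (pol A e) = ∏ i, (1 + (e i : ℝ))) ∨
    ∃ z : ℝ, 1 < |z| ∧ ((pol A e).map (Int.castRingHom ℝ)).eval z = 0 ∧
      (∀ w : ℂ, 1 < ‖w‖ → (toC (pol A e)).eval w = 0 → w = z) ∧
      m1 (pol A e) = (∏ i, (1 + (e i : ℝ))) * |z| := by
  have hp : (pol A e).map (Int.castRingHom ℝ) ≠ 0 :=
    (Polynomial.map_ne_zero_iff (RingHom.injective_int _)).mpr (pol_ne A e he)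
  have hl : |((pol A e).map (Int.castRingHom ℝ)).leadingCoeff| = ∏ i, (1 + (e i : ℝ)) := by
    rw [leadingCoeff_map_of_injective (RingHom.injective_int _), pol_lead A e he]
    have h1 : (Int.castRingHom ℝ) (∏ i, (1 + e i)) = ∏ i, (1 + (e i : ℝ)) := by
      rw [map_prod]
      exact Finset.prod_congr rfl fun i _ => by simp
    rw [h1, abs_of_nonneg]
    refine Finset.prod_nonneg fun i _ => ?_
    have : (0 : ℝ) ≤ e i := by exact_mod_cast he i
    linarith
  have h2 := measure_cases _ hp (h.card e he)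
  rw [hl, ← toC_eq] at h2
  exact h2

/-- real roots outside are the measure -/
theorem Dat.root_abs (h : Dat A d) (z : ℝ) (hz : 1 < |z|)
    (h0 : ((cox A).map (Int.castRingHom ℝ)).eval z = 0) : m1 (cox A) = |z| := by
  have h0C : (toC (cox A)).eval (z : ℂ) = 0 := by
    rw [toC_eq, eval_map, ← Complex.ofRealHom_eq_coe z, eval₂_at_apply, h0, map_zero]
  have hzn : 1 < ‖(z : ℂ)‖ := by rwa [Complex.norm_real, Real.norm_eq_abs]
  rcases h.cases 0 fun _ => le_rfl with ⟨h1, _⟩ | ⟨w, _, _, h1, h2⟩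
  · exact absurd h0C (h1 _ hzn)
  · have h3 := h1 _ hzn h0C
    have h4 : z = w := by exact_mod_cast h3
    have h5 : m1 (cox A) = (∏ i : Fin n, (1 + (((0 : Fin n → ℤ) i : ℤ) : ℝ))) * |w| := h2
    rw [h5, h4]
    simp

theorem Dat.one_le (A : Matrix (Fin n) (Fin n) ℤ) : 1 ≤ m1 (cox A) :=
  Pool.Agent.Y820.LB.one_le_m1 (cox_monic A).ne_zero

theorem cox_real_lead (A : Matrix (Fin n) (Fin n) ℤ) :
    ((cox A).map (Int.castRingHom ℝ)).leadingCoeff = 1 := (cox_monic A).map _

theorem cox_real_deg (A : Matrix (Fin n) (Fin n) ℤ) :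
    ((cox A).map (Int.castRingHom ℝ)).natDegree = n := by
  rw [natDegree_map_eq_of_injective (RingHom.injective_int _)]
  exact pol_natDegree A 0 fun _ => le_rfl

theorem Dat.pos_at (h : Dat A d) (z : ℝ) (hz : m1 (cox A) < z) :
    0 < ((cox A).map (Int.castRingHom ℝ)).eval z := by
  refine pos_right _ (by rw [cox_real_lead]; exact one_pos) z fun t ht h0 => ?_
  have h1 := Dat.one_le A
  have h2 : |t| = t := abs_of_pos (by linarith)
  have := h.root_abs t (by rw [h2]; linarith) h0
  linarith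

theorem Dat.neg_at (h : Dat A d) (z : ℝ) (hz : z < - m1 (cox A)) :
    0 < (-1) ^ n * ((cox A).map (Int.castRingHom ℝ)).eval z := by
  have h3 := pos_left ((cox A).map (Int.castRingHom ℝ))
    (by rw [cox_real_lead]; exact one_pos) z fun t ht h0 => by
    have h1 := Dat.one_le A
    have h2 : |t| = -t := abs_of_neg (by linarith)
    have := h.root_abs t (by rw [h2]; linarith) h0
    linarith
  rwa [cox_real_deg] at h3

/-- deletion of an index -/
def del (A : Matrix (Fin (n + 1)) (Fin (n + 1)) ℤ) (i : Fin (n + 1)) :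
    Matrix (Fin n) (Fin n) ℤ := A.submatrix i.succAbove i.succAbove

theorem up_del (A : Matrix (Fin (n + 1)) (Fin (n + 1)) ℤ) (i : Fin (n + 1)) :
    up (del A i) = (up A).submatrix i.succAbove i.succAbove := by
  ext a b
  simp [up, del, Fin.succAbove_lt_succAbove_iff]

theorem lo_del (A : Matrix (Fin (n + 1)) (Fin (n + 1)) ℤ) (i : Fin (n + 1)) :
    lo (del A i) = (lo A).submatrix i.succAbove i.succAbove := by
  ext a b
  simp [lo, del, Fin.succAbove_lt_succAbove_iff]

theorem Dat.del {A : Matrix (Fin (n + 1)) (Fin (n + 1)) ℤ} {d : Fin (n + 1) → ℝ} (h : Dat A d)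
    (i : Fin (n + 1)) : Dat (CX.del A i) (fun a => d (i.succAbove a)) where
  diag a := h.diag _
  pos a := h.pos _
  symm a b := h.symm _ _
  lor := by
    obtain ⟨v, hv⟩ := h.lor
    refine ⟨fun a => v (i.succAbove a), fun x => ?_⟩
    have h1 := hv (i.insertNth 0 x)
    rw [Fin.sum_univ_succAbove _ i] at h1
    simp only [Fin.insertNth_apply_same, mul_zero, zero_mul, Finset.sum_const_zero, zero_add]
      at h1
    have h2 : ∑ a, v a * (i.insertNth 0 x : Fin (n + 1) → ℝ) a = ∑ a, v (i.succAbove a) * x a := by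
      rw [Fin.sum_univ_succAbove _ i]
      simp
    rw [h2] at h1
    refine h1.trans (le_of_eq ?_)
    congr 1
    refine Finset.sum_congr rfl fun a _ => ?_
    rw [Fin.sum_univ_succAbove _ i]
    simp [CX.del]

/-- the expansion of the determinant -/
theorem det_add_single {R : Type} [CommRing R] (M : Matrix (Fin (n + 1)) (Fin (n + 1)) R)
    (i : Fin (n + 1)) (c : R) : (M + diagonal (Pi.single i c)).det =
      M.det + c * (M.submatrix i.succAbove i.succAbove).det := by
  have h1 : M + diagonal (Pi.single i c) = M.updateRow i (M i + c • Pi.single i 1) := by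
    ext a b
    by_cases ha : a = i
    · subst ha
      rw [updateRow_self]
      by_cases hb : b = a
      · subst hb
        simp
      · simp [Matrix.diagonal_apply_ne _ (Ne.symm hb), Pi.single_eq_of_ne hb]
    · rw [updateRow_ne ha]
      by_cases hb : a = b
      · subst hb
        simp [Pi.single_eq_of_ne ha]
      · simp [Matrix.diagonal_apply_ne _ hb]
  rw [h1, det_updateRow_add, updateRow_eq_self, det_updateRow_smul, ← adjugate_apply,
    adjugate_fin_succ_eq_det_submatrix]
  congr 2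
  rw [← two_mul, pow_mul]
  simp

theorem pol_single (A : Matrix (Fin (n + 1)) (Fin (n + 1)) ℤ) (i : Fin (n + 1)) :
    pol A (Pi.single i 1) = cox A + (X - 1) * cox (del A i) := by
  have h1 : ((X : ℤ[X]) • (up A + diagonal (Pi.single i 1)).map C +
      (lo A - diagonal (Pi.single i 1)).map C) = ((X : ℤ[X]) • (up A + diagonal 0).map C +
      (lo A - diagonal 0).map C) + diagonal (Pi.single i (X - 1)) := by
    ext1 a b
    by_cases hab : a = b
    · subst hab
      by_cases ha : a = i
      · subst ha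
        simp
        ring
      · simp [Pi.single_eq_of_ne ha]
    · simp [Matrix.diagonal_apply_ne _ hab]
  unfold cox pol pnc
  rw [h1, det_add_single]
  congr 3
  rw [up_del, lo_del]
  ext1 a b
  by_cases hab : a = b
  · subst hab
    simp
  · simp [Matrix.diagonal_apply_ne _ hab]

theorem prod_single (i : Fin (n + 1)) :
    ∏ a : Fin (n + 1), (1 + (((Pi.single i 1 : Fin (n + 1) → ℤ) a : ℤ) : ℝ)) = 2 := by
  rw [Fin.prod_univ_succAbove _ i]
  simp
  norm_num

/-- **The measure of the auxiliary polynomial.** -/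
theorem Dat.aux {A : Matrix (Fin (n + 1)) (Fin (n + 1)) ℤ} {d : Fin (n + 1) → ℝ} (h : Dat A d)
    (i : Fin (n + 1)) : m1 (cox A + (X - 1) * cox (CX.del A i)) ≤
      2 * max (m1 (cox A)) (m1 (cox (CX.del A i))) := by
  have he : ∀ a, 0 ≤ (Pi.single i 1 : Fin (n + 1) → ℤ) a := by
    intro a
    by_cases ha : a = i
    · subst ha; simp
    · simp [Pi.single_eq_of_ne ha]
  have hF := Dat.one_le A
  rw [← pol_single]
  rcases h.cases (Pi.single i 1) he with ⟨_, h1⟩ | ⟨z, hz, hz0, _, h1⟩
  · rw [h1, prod_single]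
    have := le_max_left (m1 (cox A)) (m1 (cox (CX.del A i)))
    linarith
  · rw [h1, prod_single]
    refine mul_le_mul_of_nonneg_left ?_ (by norm_num)
    by_contra hcon
    push Not at hcon
    obtain ⟨h2, h3⟩ := max_lt_iff.mp hcon
    have hdel := h.del i
    rw [pol_single, Polynomial.map_add, Polynomial.map_mul, eval_add, eval_mul] at hz0
    simp only [Polynomial.map_sub, Polynomial.map_X, Polynomial.map_one, eval_sub, eval_X,
      eval_one] at hz0
    rcases lt_or_ge 0 z with hz1 | hz1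
    · rw [abs_of_pos hz1] at h2 h3 hz
      have h4 := h.pos_at z h2
      have h5 := hdel.pos_at z h3
      have h6 := mul_pos (sub_pos.mpr hz) h5
      linarith
    · rw [abs_of_nonpos hz1] at h2 h3 hz
      have h4 := h.neg_at z (by linarith)
      have h5 := hdel.neg_at z (by linarith)
      have h6 : 0 < (1 - z) * ((-1) ^ n * ((cox (CX.del A i)).map (Int.castRingHom ℝ)).eval z) :=
        mul_pos (by linarith) h5
      have h7 : (-1 : ℝ) ^ (n + 1) * (((cox A).map (Int.castRingHom ℝ)).eval z +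
          (z - 1) * ((cox (CX.del A i)).map (Int.castRingHom ℝ)).eval z) =
          (-1) ^ (n + 1) * ((cox A).map (Int.castRingHom ℝ)).eval z +
          (1 - z) * ((-1) ^ n * ((cox (CX.del A i)).map (Int.castRingHom ℝ)).eval z) := by
        rw [pow_succ]
        ring
      rw [hz0, mul_zero] at h7
      linarith

end

end Pool.Agent.W5h66.CX
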