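import Pool.Agent.W5h66.CX.F

/-!
# The classes of Coxeter polynomials
-/

set_option autoImplicit false

namespace Pool.Agent.W5h66.CX

open Matrix Polynomial Filter Topology MeasureTheory
open Pool.Agent.H261R2.CM (toC ez ev1 m1 mx1 D_log_m1 D_intervalIntegrable_log D_ae_ne)
open Pool.Agent.Y820.LB (Dom Good)

noncomputable section

variable {n : ℕ}

theorem cox_zero (A : Matrix (Fin 0) (Fin 0) ℤ) : m1 (cox A) = 1 := by
  have h1 : cox A = 1 := by
    unfold cox pol pnc
    exact Matrix.det_isEmpty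
  rw [h1, Pool.Agent.Y820.LB.m1_one]

/-- every value is taken with a coprime minor -/
theorem coxeter_good : ∀ (n : ℕ) (A : Matrix (Fin n) (Fin n) ℤ) (d : Fin n → ℝ), Dat A d →
    (∀ i j, i ≠ j → A i j ≤ 0) → m1 (cox A) = 1 ∨
      ∃ P : ℤ[X], Good (2 * Real.log 2) P ∧ m1 (cox A) = m1 P := by
  intro n
  induction n with
  | zero => exact fun A d _ _ => Or.inl (cox_zero A)
  | succ n ih =>
    intro A d h hA
    rcases h.cases 0 fun _ => le_rfl with ⟨_, h1⟩ | ⟨z, hz, hz0, huniq, h1⟩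
    · left
      change m1 (cox A) = _ at h1
      rw [h1]
      simp
    · have hm : m1 (cox A) = |z| := by
        change m1 (cox A) = _ at h1
        rw [h1]
        simp
      by_cases h2 : ((cox (CX.del A 0)).map (Int.castRingHom ℝ)).eval z = 0
      · have h3 := (h.del 0).root_abs z hz h2
        have h4 := ih (CX.del A 0) _ (h.del 0) fun a b hab =>
          hA _ _ fun h => hab (Fin.succAbove_right_injective h)
        rw [h3, ← hm] at h4
        exact h4
      · right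
        refine ⟨cox A, ?_, rfl⟩
        have h5 := h.good 0 1 (by rw [one_mul]; exact h.mono hA 0) le_rfl fun w hw hw0 hw1 => by
          have h6 := huniq w hw hw0
          rw [h6, toC_eq, eval_map, ← Complex.ofRealHom_eq_coe z, eval₂_at_apply,
            Complex.ofRealHom_eq_coe] at hw1
          exact h2 (by exact_mod_cast hw1)
        rw [Real.log_one, add_zero] at h5
        exact h5

/-- the inequality for the pair -/
theorem Dat.pair {A : Matrix (Fin (n + 1)) (Fin (n + 1)) ℤ} {d : Fin (n + 1) → ℝ} (h : Dat A d)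
    (i : Fin (n + 1)) : ∫ t in (0:ℝ)..1, Real.log (max ‖ev1 (cox A) t‖
      ‖ev1 ((X - 1) * cox (CX.del A i)) t‖) ≤
      Real.log (2 * max (m1 (cox A)) (m1 (cox (CX.del A i)))) := by
  set P := cox A + (X - 1) * cox (CX.del A i) with hP
  have hP0 : P ≠ 0 := by
    rw [hP, ← pol_single]
    refine pol_ne _ _ fun a => ?_
    by_cases ha : a = i
    · subst ha; simp
    · simp [Pi.single_eq_of_ne ha]
  have h2 : 0 < m1 P := lt_of_lt_of_le one_pos (Pool.Agent.Y820.LB.one_le_m1 hP0)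
  refine le_trans ?_ (Real.log_le_log h2 (h.aux i))
  rw [D_log_m1]
  refine intervalIntegral.integral_mono_ae zero_le_one
    (Pool.Agent.H261R2.CM.mx1_intervalIntegrable _ _ (cox_monic A).ne_zero)
    (D_intervalIntegrable_log P) ?_
  filter_upwards [D_ae_ne (cox A) (cox_monic A).ne_zero] with t h1
  have h3 := h.circle i (ez t) (Pool.Agent.H261R2.CM.D_norm_ez t)
  change ‖ev1 P t‖ ^ 2 = ‖ev1 (cox A) t‖ ^ 2 + ‖ev1 ((X - 1) * cox (CX.del A i)) t‖ ^ 2 at h3
  have h4 : 0 < ‖ev1 (cox A) t‖ := norm_pos_iff.mpr h1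
  refine Real.log_le_log (lt_max_of_lt_left h4) (max_le ?_ ?_)
  · exact abs_le_of_sq_le_sq' (by nlinarith [sq_nonneg ‖ev1 ((X - 1) * cox (CX.del A i)) t‖])
      (norm_nonneg _) |>.2
  · exact abs_le_of_sq_le_sq' (by nlinarith [sq_nonneg ‖ev1 (cox A) t‖])
      (norm_nonneg _) |>.2

/-- classes with good polynomials or measure one -/
theorem good_BC' (c : ℝ → ℝ) (hc : Monotone c) (T : Set ℝ)
    (hT : ∀ x ∈ T, x = 1 ∨ ∃ P : ℤ[X], Good (c x) P ∧ x = m1 P) :
    Pool.Agent.TH845.KN.BC T := by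
  have h1 : Pool.Agent.TH845.KN.BC ({1} : Set ℝ) := by
    intro B
    refine ⟨0, ?_⟩
    rintro x ⟨hx, _⟩
    rw [Set.mem_singleton_iff.mp hx]
    exact Pool.Agent.TH845.KN.one_mem_LL
  have h2 : Pool.Agent.TH845.KN.BC {x | x ∈ T ∧ ∃ P : ℤ[X], Good (c x) P ∧ x = m1 P} :=
    Pool.Agent.W5h66.LX.good_BC c hc _ fun x hx => hx.2
  have h3 := Pool.Agent.TH845.KN.BC.union h1 h2
  intro B
  obtain ⟨K, hK⟩ := h3 B
  refine ⟨K, ?_⟩
  rintro x ⟨hx, hB⟩
  refine hK ⟨?_, hB⟩
  rcases hT x hx with h | h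
  · exact Or.inl h
  · exact Or.inr ⟨hx, h⟩

end

end Pool.Agent.W5h66.CX
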